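import Pool.Agent.Lib.MP_84ba36_lc.Cantor

/-!
The weak Lipschitz Baumgartner statement gives countably many Lipschitz maps whose images of `A`
lie in `B` and cover `B`.
-/

set_option autoImplicit false

namespace Pool.Agent.Lib.MP_84ba36_lc

open Set Cardinal Filter Function

section
variable {K : Type}

theorem exists_slalom [Countable K] [TopologicalSpace K] (h : BALip K) {e : Bool → K}
    (he : Injective e) (f : W → ℕ → ℕ) :
    ∃ S : ℕ → Finset ℕ, (∀ p, (S p).card ≤ 2 ^ (p + 1)) ∧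
      ¬ {i | ∀ᶠ p in atTop, f i p ∈ S p}.Countable := by
  by_contra hcon
  have hf : ∀ S : ℕ → Finset ℕ, (∀ p, (S p).card ≤ 2 ^ (p + 1)) →
      {i | ∀ᶠ p in atTop, f i p ∈ S p}.Countable := by
    intro S hS
    by_contra h1
    exact hcon ⟨S, hS, h1⟩
  by_cases hb : ∀ b : ℕ → ℕ, {i | ∀ᶠ p in atTop, f i p ≤ b p}.Countable
  · exact unbounded_case h he f hb
  · push Not at hb
    obtain ⟨b, hb⟩ := hb
    rw [countable_iff_lt, not_lt, ← mk_W] at hb
    obtain ⟨r⟩ := (Cardinal.le_def _ _).mp hb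
    refine bounded_case h he (fun i => f (r i).1) b (fun i => (r i).2) fun S hS => ?_
    exact (hf S hS).preimage (f := fun i => (r i).1) (Subtype.val_injective.comp r.injective)

theorem decoder (B : Set (ℕ → K)) (fill : (ℕ → K) → ℕ → ℕ → K)
    (hfB : ∀ g t, fill g t ∈ B) (hf : ∀ g t n, n < t → fill g t n = g n)
    (τ : ℕ → ℕ) (hτ : StrictMono τ) (cand : (ℕ → K) → ℕ → ℕ → K)
    (hc : ∀ p x y, (∀ n < τ p, x n = y n) → cand x p = cand y p) (m : ℕ) (s : ℕ → K) :
    ∃ dcd : (ℕ → K) → ℕ → K, IsLip dcd ∧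
      ∀ x b, b ∈ B → ∀ N, (∀ p, N ≤ p → ∀ n < τ (p + 1), cand x p n = b n) →
        dcd x ∈ B ∧ (N ≤ m → (∀ n < τ m, s n = b n) → dcd x = b) := by
  classical
  obtain ⟨z, hz0, hzS⟩ : ∃ z : (ℕ → K) → ℕ → ℕ → K, (∀ x, z x 0 = fill s (τ m)) ∧
      ∀ x p, z x (p + 1) = if m ≤ p ∧ ∀ n < τ p, cand x p n = z x p n
        then fill (cand x p) (τ (p + 1)) else z x p :=
    ⟨fun x p => Nat.rec (fill s (τ m)) (fun p zp => if m ≤ p ∧ ∀ n < τ p, cand x p n = zp n
      then fill (cand x p) (τ (p + 1)) else zp) p, fun _ => rfl, fun _ _ => rfl⟩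
  have hzB : ∀ x p, z x p ∈ B := by
    intro x p
    induction p with
    | zero => rw [hz0]; exact hfB _ _
    | succ p ih =>
      rw [hzS]
      split_ifs
      · exact hfB _ _
      · exact ih
  have hstep : ∀ x p n, n < τ p → z x (p + 1) n = z x p n := by
    intro x p n hn
    rw [hzS]
    split_ifs with h1
    · rw [hf _ _ _ (hn.trans (hτ (Nat.lt_succ_self p))), h1.2 n hn]
    · rfl
  have hstab : ∀ x p q n, p ≤ q → n < τ p → z x q n = z x p n := by
    intro x p q n hpq hn
    induction q, hpq using Nat.le_induction with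
    | base => rfl
    | succ q hq ih => rw [hstep x q n (hn.trans_le (hτ.monotone hq)), ih]
  have hdep : ∀ p x y, (∀ q < p, ∀ n < τ q, x n = y n) → z x p = z y p := by
    intro p x y
    induction p with
    | zero => intro _; rw [hz0, hz0]
    | succ p ih =>
      intro hxy
      rw [hzS, hzS, ih fun q hq => hxy q (by omega), hc p x y (hxy p (by omega))]
  have hlt : ∀ n p, n < p → n < τ p := fun n p h => h.trans_le hτ.le_apply
  let ρ : ℕ → ℕ := fun n => sInf {p | n < τ p}
  have hρ1 : ∀ n p, n < τ p → ρ n ≤ p := fun n p h => Nat.sInf_le h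
  have hρ0 : ∀ n, n < τ (ρ n) := fun n =>
    Nat.sInf_mem (s := {p | n < τ p}) ⟨n + 1, hlt n _ (Nat.lt_succ_self n)⟩
  have hρ3 : ∀ n q, q < ρ n → τ q ≤ n := by
    intro n q hq
    by_contra h1
    have := hρ1 n q (not_le.mp h1)
    omega
  have hdd : ∀ x p n, n < τ p → z x (ρ n) n = z x p n := fun x p n hn =>
    (hstab x (ρ n) p n (hρ1 n p hn) (hρ0 n)).symm
  refine ⟨fun x n => z x (ρ n) n, ?_, fun x b hb N hN => ⟨?_, fun hNm hs => ?_⟩⟩
  · intro k x y hxy i hi
    show z x (ρ i) i = z y (ρ i) i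
    rw [hdep (ρ i) x y fun q hq n hn => hxy n (by have := hρ3 i q hq; omega)]
  · by_cases hinf : ∀ M, ∃ p, M ≤ p ∧ (m ≤ p ∧ ∀ n < τ p, cand x p n = z x p n)
    · have : (fun n => z x (ρ n) n) = b := by
        funext n
        obtain ⟨p, hp, hup⟩ := hinf (N + n)
        have hn : n < τ (p + 1) := hlt n _ (by omega)
        rw [hdd x (p + 1) n hn, hzS, if_pos hup, hf _ _ _ hn, hN p (by omega) n hn]
      show (fun n => z x (ρ n) n) ∈ B
      rw [this]
      exact hb
    · obtain ⟨M, hM⟩ := not_forall.mp hinf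
      have hconst : ∀ q, M ≤ q → z x q = z x M := by
        intro q hq
        induction q, hq using Nat.le_induction with
        | base => rfl
        | succ q hq ih => rw [hzS, if_neg fun h1 => hM ⟨q, hq, h1⟩, ih]
      have : (fun n => z x (ρ n) n) = z x M := by
        funext n
        rw [hdd x (M + n + 1) n (hlt n _ (by omega)), hconst (M + n + 1) (by omega)]
      show (fun n => z x (ρ n) n) ∈ B
      rw [this]
      exact hzB x M
  · have h1 : ∀ p, p ≤ m → z x p = fill s (τ m) := by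
      intro p
      induction p with
      | zero => intro _; exact hz0 x
      | succ p ih =>
        intro hp
        have hne : ¬ (m ≤ p ∧ ∀ n < τ p, cand x p n = z x p n) := fun h1 => by
          have := h1.1
          omega
        rw [hzS, if_neg hne, ih (by omega)]
    have h2 : ∀ p, m ≤ p → ∀ n < τ p, z x p n = b n := by
      intro p hp
      induction p, hp using Nat.le_induction with
      | base =>
        intro n hn
        rw [h1 m le_rfl, hf _ _ _ hn, hs n hn]
      | succ p hp ih =>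
        intro n hn
        have hup : m ≤ p ∧ ∀ n < τ p, cand x p n = z x p n :=
          ⟨hp, fun n hn => by
            rw [ih n hn, hN p (by omega) n (hn.trans (hτ (Nat.lt_succ_self p)))]⟩
        rw [hzS, if_pos hup, hf _ _ _ hn, hN p (by omega) n hn]
    funext n
    show z x (ρ n) n = b n
    rw [hdd x (m + n + 1) n (hlt n _ (by omega)), 
      h2 (m + n + 1) (by omega) n (hlt n _ (by omega))]

theorem exists_fill [TopologicalSpace K] [DiscreteTopology K] {B : Set (ℕ → K)}
    (hB : Aleph1Dense B) (g : ℕ → K) (t : ℕ) : ∃ x ∈ B, ∀ n, n < t → x n = g n := by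
  have hU : IsOpen (Set.pi (Iio t) fun n => ({g n} : Set K)) :=
    isOpen_set_pi (finite_Iio t) fun _ _ => isOpen_discrete _
  have h1 := hB _ hU ⟨g, fun _ _ => rfl⟩
  have h2 : (B ∩ Set.pi (Iio t) fun n => ({g n} : Set K)).Nonempty := by
    rw [← Set.nonempty_coe_sort, ← mk_ne_zero_iff, h1]
    exact (aleph_pos 1).ne'
  obtain ⟨x, hx, hx'⟩ := h2
  exact ⟨x, hx, fun n hn => hx' n hn⟩

theorem barred [Countable K] [Nontrivial K] [TopologicalSpace K] [DiscreteTopology K]
    (h : BALip K) (A B : Set (ℕ → K)) (hA : Aleph1Dense A) (hB : Aleph1Dense B) :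
    ∃ f : ℕ → (ℕ → K) → (ℕ → K), (∀ n, IsLip (f n)) ∧ B = ⋃ n, f n '' A := by
  classical
  obtain ⟨k0, k1, hk⟩ := exists_pair_ne K
  let e : Bool → K := fun b => cond b k0 k1
  have he : Injective e := by
    intro b b' hb
    cases b <;> cases b' <;> simp_all [e, hk.symm]
  choose fill hfB hf using exists_fill hB
  obtain ⟨bb⟩ : Nonempty (W ≃ B) := by
    have := hB univ isOpen_univ univ_nonempty
    rw [inter_univ, ← mk_W] at this
    exact Cardinal.eq.mp this.symm
  choose ee hee using fun i : W => (countable_Iic i).exists_eq_range nonempty_Iic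
  obtain ⟨τ, hτ, hτ2⟩ : ∃ τ : ℕ → ℕ, StrictMono τ ∧
      ∀ p c, c ≤ 2 ^ (p + 1) → Nat.pair p c < τ p := by
    refine ⟨fun p => p + ∑ q ∈ Finset.range (p + 1), (Nat.pair q (2 ^ (q + 1)) + 1),
      strictMono_nat_of_lt_succ fun p => ?_, fun p c hc => ?_⟩
    · simp only [Finset.sum_range_succ _ (p + 1)]
      omega
    · have h1 : Nat.pair p c ≤ Nat.pair p (2 ^ (p + 1)) := by
        rcases hc.eq_or_lt with rfl | h
        · exact le_rfl
        · exact (Nat.pair_lt_pair_right p h).le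
      simp only [Finset.sum_range_succ _ p]
      omega
  choose enc henc using fun p : ℕ => exists_injective_nat (Fin (p + 1) → Fin (τ (p + 1)) → K)
  let F : W → ℕ → ℕ := fun i p => enc p fun j n => (bb (ee i j)).1 n
  obtain ⟨S, hS, hI⟩ := exists_slalom h he F
  have hen : ∀ p v, ∃ c, v ∈ S p → c ≤ 2 ^ (p + 1) ∧ (S p).toList.getD c 0 = v := by
    intro p v
    by_cases hv : v ∈ S p
    · obtain ⟨c, hc, hcv⟩ := List.mem_iff_getElem.mp (Finset.mem_toList.mpr hv)
      refine ⟨c, fun _ => ⟨?_, ?_⟩⟩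
      · have := hS p
        have h2 := hc
        rw [Finset.length_toList] at h2
        omega
      · rw [List.getD_eq_getElem _ _ hc, hcv]
    · exact ⟨0, fun h1 => absurd h1 hv⟩
  choose idx hidx using hen
  rw [countable_iff_lt, not_lt, ← mk_W] at hI
  obtain ⟨r⟩ := (Cardinal.le_def _ _).mp hI
  have hrinj : Injective fun i => (r i).1 := Subtype.val_injective.comp r.injective
  let g : W → ℕ → K := fun i => gr e fun p => idx p (F (r i).1 p)
  let dec : (ℕ → K) → ℕ → ℕ := fun x p =>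
    sInf {c | c ≤ 2 ^ (p + 1) ∧ x (Nat.pair p c) = e true}
  let cand : ℕ → (ℕ → K) → ℕ → ℕ → K := fun j x p n =>
    if h : j < p + 1 ∧ n < τ (p + 1) then
      invFun (enc p) ((S p).toList.getD (dec x p) 0) ⟨j, h.1⟩ ⟨n, h.2⟩ else k0
  have hc : ∀ j p x y, (∀ n < τ p, x n = y n) → cand j x p = cand j y p := by
    intro j p x y hxy
    have : dec x p = dec y p := by
      simp only [dec]
      congr 1
      ext c
      exact and_congr_right fun hc => by rw [hxy _ (hτ2 p c hc)]
    simp only [cand, this]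
  have hcand : ∀ i x, (∀ᶠ n in atTop, x n = g i n) → ∀ j, ∃ N, ∀ p, N ≤ p →
      ∀ n < τ (p + 1), cand j x p n = (bb (ee (r i).1 j)).1 n := by
    intro i x hx j
    have h0 : ∀ᶠ p in atTop, F (r i).1 p ∈ S p := (r i).2
    obtain ⟨N, hN⟩ := eventually_atTop.mp 
      ((gr_ev (y := fun p => idx p (F (r i).1 p)) he hx).and h0)
    refine ⟨N + j, fun p hp n hn => ?_⟩
    obtain ⟨h1, h2⟩ := hN p (by omega)
    obtain ⟨h3, h4⟩ := hidx p _ h2
    have h5 : {c | c ≤ 2 ^ (p + 1) ∧ x (Nat.pair p c) = e true} = {idx p (F (r i).1 p)} := by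
      ext c
      simp only [mem_ofPred_eq, h1, mem_singleton_iff]
      exact ⟨fun h => h.2.symm, fun h => ⟨h ▸ h3, h.symm⟩⟩
    have h6 : dec x p = idx p (F (r i).1 p) := by simp only [dec, h5, csInf_singleton]
    have h7 : j < p + 1 ∧ n < τ (p + 1) := ⟨by omega, hn⟩
    simp only [cand, dif_pos h7, h6, h4]
    have h8 : ∀ v, invFun (enc p) (enc p v) = v := leftInverse_invFun (henc p)
    simp only [F, h8]
  have hB' : Aleph1Dense (fam g) := by
    apply aleph1Dense_fam
    intro x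
    refine Set.Subsingleton.countable fun i hi i' hi' => hrinj ?_
    have h1 : ee (r i).1 = ee (r i').1 := by
      funext j
      apply bb.injective
      apply Subtype.ext
      funext n
      obtain ⟨N, hN⟩ := hcand i x hi j
      obtain ⟨N', hN'⟩ := hcand i' x hi' j
      have hn : n < τ (N + N' + n + 1) := lt_of_lt_of_le (by omega) hτ.le_apply
      rw [← hN _ (by omega) n hn, ← hN' _ (by omega) n hn]
    have h2 : Iic (r i).1 = Iic (r i').1 := by rw [hee, hee, h1]
    exact Iic_injective h2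
  obtain ⟨φ, hφ, hinj, hmaps⟩ := h A _ hA hB'
  choose dcd hdL hdd using fun t : ℕ × ℕ × List K =>
    decoder B fill hfB hf τ hτ (cand t.1) (hc t.1) t.2.1 fun n => t.2.2.getD n k0
  obtain ⟨u, hu⟩ := exists_surjective_nat (ℕ × ℕ × List K)
  refine ⟨fun n x => dcd (u n) (φ x), fun n k x y hxy => hdL (u n) k _ _ (hφ k x y hxy), ?_⟩
  apply Subset.antisymm
  · intro b hb
    have hex : ∃ a ∈ A, ∃ i, (∀ᶠ n in atTop, φ a n = g i n) ∧ bb.symm ⟨b, hb⟩ ≤ (r i).1 := by
      by_contra hcon
      apply not_countable_of_dense hA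
      have hcount : (⋃ i ∈ (fun i => (r i).1) ⁻¹' Iio (bb.symm ⟨b, hb⟩), cls (g i)).Countable :=
        ((countable_Iio _).preimage hrinj).biUnion fun i _ => countable_cls _
      refine MapsTo.countable_of_injOn (f := φ) (fun a ha => ?_) hinj hcount
      obtain ⟨i, hi⟩ := mem_fam.mp (hmaps ha)
      refine mem_biUnion (x := i) ?_ hi
      by_contra h1
      exact hcon ⟨a, ha, i, hi, not_lt.mp h1⟩
    obtain ⟨a, ha, i, hi, hle⟩ := hex
    obtain ⟨j, hj⟩ : bb.symm ⟨b, hb⟩ ∈ range (ee (r i).1) := by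
      rw [← hee]
      exact hle
    obtain ⟨N, hN⟩ := hcand i _ hi j
    rw [hj, Equiv.apply_symm_apply] at hN
    obtain ⟨n, hn⟩ := hu (j, N, List.ofFn fun n : Fin (τ N) => b n)
    refine mem_iUnion.mpr ⟨n, a, ha, ?_⟩
    show dcd (u n) (φ a) = b
    rw [hn]
    refine (hdd _ (φ a) b hb N hN).2 le_rfl fun n hn => ?_
    have hn' : n < τ N := hn
    simp [hn']
  · rintro _ ⟨_, ⟨n, rfl⟩, a, ha, rfl⟩
    obtain ⟨i, hi⟩ := mem_fam.mp (hmaps ha)
    obtain ⟨N, hN⟩ := hcand i _ hi (u n).1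
    exact (hdd (u n) (φ a) _ (bb (ee (r i).1 (u n).1)).2 N hN).1

end

end Pool.Agent.Lib.MP_84ba36_lc
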