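import Mathlib

/-!
Finite modifications of families of sequences indexed by the first uncountable ordinal, and a count
of the Lipschitz maps of a sequence space.
-/

set_option autoImplicit false

namespace Pool.Agent.Lib.MP_84ba36_lc

open Set Cardinal Filter Function

/-- A well ordered type of order type `ω₁`. -/
abbrev W : Type := (ℵ₁ : Cardinal.{0}).ord.ToType

theorem mk_W : #W = ℵ₁ := mk_ord_toType _

theorem countable_iff_lt {α : Type} (s : Set α) : s.Countable ↔ #s < ℵ₁ := by
  rw [lt_aleph_one_iff, le_aleph0_iff_set_countable]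

theorem countable_Iio (i : W) : (Iio i).Countable := by
  rw [countable_iff_lt]
  exact (mk_Iio_lt i (by simp)).trans_eq mk_W

theorem countable_Iic (i : W) : (Iic i).Countable := by
  rw [← Iio_insert]
  exact (countable_Iio i).insert i

theorem not_countable_W : ¬ (univ : Set W).Countable := by
  rw [countable_iff_lt, mk_univ, mk_W]
  exact lt_irrefl _

/-- `ℵ₁`-dense sets. -/
def Aleph1Dense {Z : Type} [TopologicalSpace Z] (A : Set Z) : Prop :=
  ∀ U : Set Z, IsOpen U → U.Nonempty → #(A ∩ U : Set Z) = ℵ₁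

/-- Lipschitz maps with constant one. -/
def IsLip {K : Type} (f : (ℕ → K) → (ℕ → K)) : Prop :=
  ∀ (k : ℕ) (x y : ℕ → K), (∀ i < k, x i = y i) → ∀ i < k, f x i = f y i

/-- The weak Lipschitz Baumgartner statement for the space of `K`-valued sequences. -/
def BALip (K : Type) [TopologicalSpace K] : Prop :=
  ∀ A B : Set (ℕ → K), Aleph1Dense A → Aleph1Dense B →
    ∃ f : (ℕ → K) → (ℕ → K), IsLip f ∧ InjOn f A ∧ MapsTo f A B

section

variable {K : Type}

/-- The finite modifications of one sequence. -/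
def cls (g : ℕ → K) : Set (ℕ → K) := {x | ∀ᶠ n in atTop, x n = g n}

theorem countable_cls [Countable K] (g : ℕ → K) : (cls g).Countable := by
  let r : List K → ℕ → K := fun l n => l.getD n (g n)
  refine (countable_range r).mono ?_
  intro x hx
  obtain ⟨N, hN⟩ := eventually_atTop.mp hx
  refine ⟨List.ofFn (fun i : Fin N => x i), ?_⟩
  funext n
  by_cases h : n < N
  · simp [r, h]
  · simp [r, h, hN n (not_lt.mp h)]

/-- The finite modifications of a family of sequences indexed by `ω₁`. -/
def fam (g : W → ℕ → K) : Set (ℕ → K) := ⋃ i, cls (g i)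

theorem mem_fam {g : W → ℕ → K} {x : ℕ → K} : x ∈ fam g ↔ ∃ i, ∀ᶠ n in atTop, x n = g i n := by
  simp [fam, cls]

theorem self_mem_fam (g : W → ℕ → K) (i : W) : g i ∈ fam g :=
  mem_fam.mpr ⟨i, Eventually.of_forall fun _ => rfl⟩

theorem aleph1Dense_fam [Countable K] [TopologicalSpace K] (g : W → ℕ → K)
    (hg : ∀ x : ℕ → K, {i | ∀ᶠ n in atTop, x n = g i n}.Countable) : Aleph1Dense (fam g) := by
  classical
  intro U hU hne
  apply le_antisymm
  · refine (mk_le_mk_of_subset inter_subset_left).trans ?_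
    refine (mk_iUnion_le _).trans ?_
    have h1 : ⨆ i, #(cls (g i)) ≤ ℵ₀ :=
      ciSup_le' fun i => (countable_cls (g i)).le_aleph0
    calc #W * ⨆ i, #(cls (g i)) ≤ ℵ₁ * ℵ₀ := by rw [mk_W]; gcongr
      _ = ℵ₁ := mul_aleph0_eq (aleph0_le_aleph 1)
  · rw [aleph_one_le_iff, ← not_le, le_aleph0_iff_set_countable]
    intro hc
    obtain ⟨x0, hx0⟩ := hne
    obtain ⟨I, u, hu, hI⟩ := isOpen_pi_iff.mp hU x0 hx0
    let r : W → ℕ → K := fun i n => if n ∈ I then x0 n else g i n
    have hr : ∀ i, ∀ᶠ n in atTop, r i n = g i n := by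
      intro i
      have : ∀ᶠ n in atTop, n ∉ I := by
        rw [← Nat.cofinite_eq_atTop]
        exact I.finite_toSet.compl_mem_cofinite
      exact this.mono fun n hn => by simp [r, hn]
    have hmem : ∀ i, r i ∈ fam g ∩ U := by
      intro i
      refine ⟨mem_fam.mpr ⟨i, hr i⟩, hI ?_⟩
      intro n hn
      have hn' : n ∈ I := hn
      simp only [r, hn', if_true]
      exact (hu n hn').2
    apply not_countable_W
    refine (hc.biUnion fun x _ => hg x).mono ?_
    intro i _
    exact mem_biUnion (hmem i) (hr i)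

theorem not_countable_of_dense [TopologicalSpace K] [Nonempty K] {A : Set (ℕ → K)}
    (hA : Aleph1Dense A) : ¬ A.Countable := by
  have := hA univ isOpen_univ univ_nonempty
  rw [inter_univ] at this
  rw [countable_iff_lt, this]
  exact lt_irrefl _

/-- Every bit of `c` repeated infinitely often. -/
def spread (e : Bool → K) (c : ℕ → Bool) : ℕ → K := fun n => e (c (Nat.unpair n).1)

theorem spread_inj {e : Bool → K} (he : Injective e) {c c' : ℕ → Bool} {x : ℕ → K}
    (h : ∀ᶠ n in atTop, x n = spread e c n) (h' : ∀ᶠ n in atTop, x n = spread e c' n) :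
    c = c' := by
  obtain ⟨N, hN⟩ := eventually_atTop.mp (h.and h')
  funext m
  have h1 := hN (Nat.pair m N) (Nat.right_le_pair m N)
  have h2 := h1.1.symm.trans h1.2
  simp only [spread, Nat.unpair_pair] at h2
  exact he h2

theorem mk_lip_le [Countable K] [Nonempty K] : #{f : (ℕ → K) → (ℕ → K) // IsLip f} ≤ 𝔠 := by
  obtain ⟨k0⟩ := ‹Nonempty K›
  let r : List K → ℕ → K := fun l n => l.getD n k0
  let Φ : {f : (ℕ → K) → (ℕ → K) // IsLip f} → (List K × ℕ → K) := fun f p => f.1 (r p.1) p.2
  have hΦ : Injective Φ := by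
    intro f f' h
    apply Subtype.ext
    funext x k
    have hx : ∀ i < k + 1, x i = r (List.ofFn (fun i : Fin (k + 1) => x i)) i := by
      intro i hi
      simp only [r]
      rw [List.getD_eq_getElem _ _ (by simpa using hi), List.getElem_ofFn]
    rw [f.2 (k + 1) _ _ hx k (Nat.lt_succ_self k), f'.2 (k + 1) _ _ hx k (Nat.lt_succ_self k)]
    exact congrFun h (List.ofFn (fun i : Fin (k + 1) => x i), k)
  refine (mk_le_of_injective hΦ).trans ?_
  rw [← power_def]
  calc #K ^ #(List K × ℕ) ≤ ℵ₀ ^ #(List K × ℕ) := power_le_power_right mk_le_aleph0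
    _ ≤ ℵ₀ ^ ℵ₀ := power_le_power_left aleph0_ne_zero mk_le_aleph0
    _ = 𝔠 := aleph0_power_aleph0

end

/-- Countable initial pieces of subsets of `ω₁` can be coded by binary sequences. -/
theorem exists_code : ∃ j : W → Set W → (ℕ → Bool),
    ∀ i i' X X', j i X = j i' X' → i = i' ∧ X ∩ Iio i = X' ∩ Iio i := by
  have h1 : #(Σ i : W, Set (Iio i)) ≤ #(ℕ → Bool) := by
    rw [mk_sigma, ← power_def, mk_bool, mk_nat, two_power_aleph0]
    have h2 : ∀ i : W, #(Set (Iio i)) ≤ 𝔠 := by
      intro i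
      rw [mk_set, ← two_power_aleph0]
      exact power_le_power_left two_ne_zero (countable_Iio i).le_aleph0
    calc sum (fun i : W => #(Set (Iio i))) ≤ sum (fun _ : W => 𝔠) := sum_le_sum _ _ h2
      _ = ℵ₁ * 𝔠 := by rw [sum_const', mk_W]
      _ ≤ 𝔠 * 𝔠 := by gcongr; exact aleph_one_le_continuum
      _ = 𝔠 := continuum_mul_self
  obtain ⟨emb⟩ := (Cardinal.le_def _ _).mp h1
  refine ⟨fun i X => emb ⟨i, Subtype.val ⁻¹' X⟩, ?_⟩
  intro i i' X X' h
  have h3 := emb.injective h
  have hi : i = i' := congrArg Sigma.fst h3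
  subst hi
  refine ⟨rfl, ?_⟩
  have h4 : (Subtype.val ⁻¹' X : Set (Iio i)) = Subtype.val ⁻¹' X' := eq_of_heq (Sigma.mk.inj h3).2
  ext t
  constructor
  · rintro ⟨ht, hti⟩
    have : (⟨t, hti⟩ : Iio i) ∈ (Subtype.val ⁻¹' X : Set (Iio i)) := ht
    rw [h4] at this
    exact ⟨this, hti⟩
  · rintro ⟨ht, hti⟩
    have : (⟨t, hti⟩ : Iio i) ∈ (Subtype.val ⁻¹' X' : Set (Iio i)) := ht
    rw [← h4] at this
    exact ⟨this, hti⟩

/-- The family of codes of the initial pieces of `X` is `ℵ₁`-dense after finite modification. -/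
theorem aleph1Dense_code {K : Type} [Countable K] [TopologicalSpace K] {e : Bool → K}
    (he : Injective e) {j : W → Set W → (ℕ → Bool)}
    (hj : ∀ i i' X X', j i X = j i' X' → i = i' ∧ X ∩ Iio i = X' ∩ Iio i) (X : Set W) :
    Aleph1Dense (fam fun i => spread e (j i X)) := by
  apply aleph1Dense_fam
  intro x
  apply Set.Subsingleton.countable
  intro i hi i' hi'
  exact (hj _ _ _ _ (spread_inj he hi hi')).1

theorem two_pow_eq {K : Type} [Countable K] [Nontrivial K] [TopologicalSpace K] (h : BALip K) :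
    (2 : Cardinal.{0}) ^ ℵ₀ = 2 ^ ℵ₁ := by
  apply le_antisymm (power_le_power_left two_ne_zero (aleph0_le_aleph 1))
  obtain ⟨k0, k1, hk⟩ := exists_pair_ne K
  let e : Bool → K := fun b => cond b k0 k1
  have he : Injective e := by
    intro b b' hb
    cases b <;> cases b' <;> simp_all [e, hk.symm]
  obtain ⟨j, hj⟩ := exists_code
  let B : Set W → Set (ℕ → K) := fun X => fam fun i => spread e (j i X)
  have hB : ∀ X, Aleph1Dense (B X) := aleph1Dense_code he hj
  choose f hf hinj hmaps using fun X => h (B ∅) (B X) (hB ∅) (hB X)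
  let Φ : Set W → {f : (ℕ → K) → (ℕ → K) // IsLip f} := fun X => ⟨f X, hf X⟩
  have hΦ : Injective Φ := by
    intro X Y hXY
    have hfXY : f X = f Y := congrArg Subtype.val hXY
    by_contra hne
    obtain ⟨t, ht⟩ : ∃ t, ¬ (t ∈ X ↔ t ∈ Y) := by
      by_contra hall
      push Not at hall
      exact hne (Set.ext hall)
    apply not_countable_of_dense (hB ∅)
    have hc : (⋃ i ∈ Iic t, cls (spread e (j i X))).Countable :=
      (countable_Iic t).biUnion fun i _ => countable_cls _
    refine MapsTo.countable_of_injOn ?_ (hinj X) hc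
    intro a ha
    obtain ⟨i, hi⟩ := mem_fam.mp (hmaps X ha)
    have h2 := hmaps Y ha
    rw [← hfXY] at h2
    obtain ⟨i', hi'⟩ := mem_fam.mp h2
    have h3 := (hj _ _ _ _ (spread_inj he hi hi')).2
    refine mem_biUnion (x := i) ?_ hi
    by_contra hlt
    have hlt' : t ∈ Iio i := mem_Iio.mpr (not_le.mp fun hle => hlt (mem_Iic.mpr hle))
    apply ht
    constructor
    · intro htX
      have : t ∈ X ∩ Iio i := ⟨htX, hlt'⟩
      rw [h3] at this
      exact this.1
    · intro htY
      have : t ∈ Y ∩ Iio i := ⟨htY, hlt'⟩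
      rw [← h3] at this
      exact this.1
  have h4 := (mk_le_of_injective hΦ).trans mk_lip_le
  rwa [mk_set, mk_W, ← two_power_aleph0] at h4

end Pool.Agent.Lib.MP_84ba36_lc
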