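import Pool.Agent.Lib.MP_84ba36_lc.Null

/-!
Additivity of the null ideal from the weak Lipschitz Baumgartner statement for an arbitrary
countable alphabet with at least two letters, in particular for Cantor space.
-/

set_option autoImplicit false

namespace Pool.Agent.Lib.MP_84ba36_lc

open Set Cardinal Filter Function MeasureTheory Topology

section
variable {K : Type}

/-- The graph of `y`, written in two letters. -/
def gr (e : Bool → K) (y : ℕ → ℕ) : ℕ → K :=
  fun n => e (decide (y (Nat.unpair n).1 = (Nat.unpair n).2))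

theorem gr_ev {e : Bool → K} (he : Injective e) {y : ℕ → ℕ} {x : ℕ → K}
    (h : ∀ᶠ n in atTop, x n = gr e y n) :
    ∀ᶠ p in atTop, ∀ c, x (Nat.pair p c) = e true ↔ y p = c := by
  obtain ⟨N, hN⟩ := eventually_atTop.mp h
  refine eventually_atTop.mpr ⟨N, fun p hp c => ?_⟩
  rw [hN _ (hp.trans (Nat.left_le_pair p c))]
  simp only [gr, Nat.unpair_pair, he.eq_iff, decide_eq_true_eq]

theorem bounded_case [Countable K] [TopologicalSpace K] (h : BALip K) {e : Bool → K}
    (he : Injective e) (f : W → ℕ → ℕ) (b : ℕ → ℕ) (hb : ∀ i, ∀ᶠ p in atTop, f i p ≤ b p)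
    (hf : ∀ S : ℕ → Finset ℕ, (∀ p, (S p).card ≤ 2 ^ (p + 1)) →
      {i | ∀ᶠ p in atTop, f i p ∈ S p}.Countable) : False := by
  classical
  let dec : (ℕ → K) → ℕ → ℕ := fun x p => sInf {c | c ≤ b p ∧ x (Nat.pair p c) = e true}
  have hdec : ∀ i x, (∀ᶠ n in atTop, x n = gr e (f i) n) → ∀ᶠ p in atTop, f i p = dec x p := by
    intro i x hx
    filter_upwards [gr_ev he hx, hb i] with p h1 h2
    have : {c | c ≤ b p ∧ x (Nat.pair p c) = e true} = {f i p} := by
      ext c
      simp only [mem_ofPred_eq, h1, mem_singleton_iff]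
      exact ⟨fun h => h.2.symm, fun h => ⟨h ▸ h2, h.symm⟩⟩
    simp only [dec, this, csInf_singleton]
  have hB : Aleph1Dense (fam fun i => gr e (f i)) := by
    apply aleph1Dense_fam
    intro x
    refine (hf (fun p => {dec x p}) (fun p => ?_)).mono ?_
    · rw [Finset.card_singleton]
      exact Nat.one_le_two_pow
    · intro i hi
      exact (hdec i x hi).mono fun p hp => by simp [hp]
  let τ : ℕ → ℕ := fun p => p + ∑ q ∈ Finset.range (p + 1), (Nat.pair q (b q) + 1)
  have hτ : StrictMono τ := strictMono_nat_of_lt_succ fun p => by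
    simp only [τ, Finset.sum_range_succ _ (p + 1)]
    omega
  have hτ2 : ∀ p c, c ≤ b p → Nat.pair p c < τ p := by
    intro p c hc
    have h1 : Nat.pair p c ≤ Nat.pair p (b p) := by
      rcases hc.eq_or_lt with rfl | h
      · exact le_rfl
      · exact (Nat.pair_lt_pair_right p h).le
    simp only [τ, Finset.sum_range_succ _ p]
    omega
  let ρ : ℕ → ℕ := fun n => sInf {p | n < τ p}
  have hρ1 : ∀ n p, n < τ p → ρ n ≤ p := fun n p h => Nat.sInf_le h
  have hρ2 : ∀ p, ρ (τ p) = p + 1 := by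
    intro p
    refine le_antisymm (hρ1 _ _ (hτ (Nat.lt_succ_self p))) ?_
    have : ρ (τ p) ∈ {q | τ p < τ q} := Nat.sInf_mem ⟨p + 1, hτ (Nat.lt_succ_self p)⟩
    exact hτ.lt_iff_lt.mp this
  obtain ⟨j, hj⟩ := exists_code
  let g : W → ℕ → K := fun i n => spread e (j i ∅) (ρ n)
  have hg : ∀ (x : ℕ → K) i i', (∀ᶠ n in atTop, x n = g i n) → (∀ᶠ n in atTop, x n = g i' n) →
      i = i' := by
    intro x i i' h1 h2
    obtain ⟨N, hN⟩ := eventually_atTop.mp (h1.and h2)
    refine (hj i i' ∅ ∅ (spread_inj he (x := spread e (j i ∅))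
      (Eventually.of_forall fun _ => rfl) (eventually_atTop.mpr ⟨N + 1, fun n hn => ?_⟩))).1
    obtain ⟨p, rfl⟩ : ∃ p, n = p + 1 := ⟨n - 1, by omega⟩
    have h3 := hN (τ p) (le_trans (by omega) hτ.le_apply)
    have h4 := h3.1.symm.trans h3.2
    simpa only [g, hρ2] using h4
  have hA : Aleph1Dense (fam g) := aleph1Dense_fam g fun x =>
    Set.Subsingleton.countable fun i hi i' hi' => hg x i i' hi hi'
  obtain ⟨φ, hφ, hinj, hmaps⟩ := h _ _ hA hB
  let ext : (p : ℕ) → (Fin (p + 1) → Bool) → ℕ → K := fun p s n =>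
    if hn : ρ n < p + 1 then e (s ⟨ρ n, hn⟩) else e false
  let S : ℕ → Finset ℕ := fun p => Finset.univ.image fun s => dec (φ (ext p s)) p
  have hS : ∀ p, (S p).card ≤ 2 ^ (p + 1) := by
    intro p
    refine Finset.card_image_le.trans ?_
    simp
  have hgS : ∀ i p, dec (φ (g i)) p ∈ S p := by
    intro i p
    refine Finset.mem_image.mpr ⟨fun n => j i ∅ (Nat.unpair n).1, Finset.mem_univ _, ?_⟩
    have h1 := hφ (τ p) (ext p fun n => j i ∅ (Nat.unpair n).1) (g i) fun n hn => by
      simp only [ext, dif_pos (Nat.lt_succ_of_le (hρ1 n p hn)), g, spread]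
    simp only [dec]
    congr 1
    ext c
    exact and_congr_right fun hc => by rw [h1 _ (hτ2 p c hc)]
  have hc : (⋃ i ∈ {i | ∀ᶠ p in atTop, f i p ∈ S p}, cls (gr e (f i))).Countable :=
    (hf S hS).biUnion fun i _ => countable_cls _
  apply not_countable_W
  refine MapsTo.countable_of_injOn (f := fun i => φ (g i)) ?_ ?_ hc
  · intro i _
    obtain ⟨i', hi'⟩ := mem_fam.mp (hmaps (self_mem_fam g i))
    refine mem_biUnion (x := i') ?_ hi'
    exact (hdec i' _ hi').mono fun p hp => hp ▸ hgS i p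
  · intro i _ i' _ hii
    have h1 : g i = g i' := hinj (self_mem_fam g i) (self_mem_fam g i') hii
    exact hg (g i) i i' (Eventually.of_forall fun _ => rfl)
      (Eventually.of_forall fun n => congrFun h1 n)

theorem exists_dom (s : Set (ℕ → ℕ)) :
    ∃ z : ℕ → ℕ, s.Countable → ∀ y ∈ s, ∀ᶠ p in atTop, y p < z p := by
  by_cases hs : s.Countable
  · obtain ⟨u, hu⟩ := (hs.insert 0).exists_eq_range (insert_nonempty _ _)
    refine ⟨fun p => ∑ k ∈ Finset.range (p + 1), u k p + 1, fun _ y hy => ?_⟩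
    obtain ⟨k, rfl⟩ : y ∈ range u := hu ▸ mem_insert_of_mem _ hy
    refine eventually_atTop.mpr ⟨k, fun p hp => Nat.lt_succ_of_le ?_⟩
    exact Finset.single_le_sum (f := fun k => u k p) (fun _ _ => Nat.zero_le _)
      (Finset.mem_range.mpr (Nat.lt_succ_of_le hp))
  · exact ⟨0, fun h => absurd h hs⟩

theorem exists_chain : ∃ y : W → ℕ → ℕ, ∀ i j, i < j → ∀ᶠ p in atTop, y i p < y j p := by
  choose dom hdom using exists_dom
  let y : W → ℕ → ℕ := (wellFounded_lt (α := W)).fix
    fun j ih => dom (range fun i : Iio j => ih i.1 i.2)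
  refine ⟨y, fun i j hij => ?_⟩
  have hy : y j = dom (range fun i : Iio j => y i.1) := WellFounded.fix_eq _ _ _
  have : Countable (Iio j) := (countable_Iio j).to_subtype
  rw [hy]
  exact hdom _ (countable_range _) _ ⟨⟨i, hij⟩, rfl⟩

theorem exists_above (s : Set W) (hs : s.Countable) : ∃ γ, ∀ a ∈ s, a < γ := by
  by_contra hcon
  push Not at hcon
  refine not_countable_W ((hs.biUnion fun a _ => countable_Iic a).mono fun γ _ => ?_)
  obtain ⟨a, ha, h⟩ := hcon γ
  exact mem_biUnion ha h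

theorem unbounded_case [Countable K] [TopologicalSpace K] (h : BALip K) {e : Bool → K}
    (he : Injective e) (f : W → ℕ → ℕ)
    (hf : ∀ b : ℕ → ℕ, {i | ∀ᶠ p in atTop, f i p ≤ b p}.Countable) : False := by
  classical
  obtain ⟨y, hy⟩ := exists_chain
  have hB : Aleph1Dense (fam fun i => gr e (y i)) := by
    apply aleph1Dense_fam
    intro x
    have key : ∀ i j, i < j → (∀ᶠ n in atTop, x n = gr e (y i) n) →
        (∀ᶠ n in atTop, x n = gr e (y j) n) → False := by
      intro i j hij hi hj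
      obtain ⟨p, h1, h2, h3⟩ := ((gr_ev he hi).and ((gr_ev he hj).and (hy i j hij))).exists
      exact h3.ne' ((h2 _).mp ((h1 _).mpr rfl))
    refine Set.Subsingleton.countable fun i hi j hj => ?_
    rcases lt_trichotomy i j with h | h | h
    exacts [(key i j h hi hj).elim, h, (key j i h hj hi).elim]
  let m : W → ℕ → ℕ := fun i l => l + ∑ k ∈ Finset.range (l + 1), f i k
  have hm : ∀ i, StrictMono (m i) := fun i => strictMono_nat_of_lt_succ fun l => by
    simp only [m, Finset.sum_range_succ _ (l + 1)]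
    omega
  have hgap : ∀ H : ℕ → ℕ, {i | ∀ n, ∃ l, n ≤ m i l ∧ m i l < H n}.Countable := by
    intro H
    let b : ℕ → ℕ := fun l => Nat.rec (H 0) (fun _ n => H n) l
    refine (hf b).mono fun i hi => Eventually.of_forall fun l => ?_
    have h1 : m i l < b l := by
      induction l with
      | zero =>
        obtain ⟨l, -, h2⟩ := hi 0
        exact ((hm i).monotone (Nat.zero_le l)).trans_lt h2
      | succ l ih =>
        obtain ⟨l', h2, h3⟩ := hi (b l)
        exact ((hm i).monotone ((hm i).lt_iff_lt.mp (ih.trans_le h2))).trans_lt h3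
    simp only [m, Finset.sum_range_succ _ l] at h1
    omega
  let x : W → ℕ → K := fun i n => e (decide (∃ l, m i l = n))
  obtain ⟨i0, -⟩ := exists_above ∅ countable_empty
  let g : W → ℕ → K := fun i => if i = i0 then fun _ => e false else x i
  have hg : ∀ w : ℕ → K, {i | ∀ᶠ n in atTop, w n = g i n}.Countable := by
    intro w
    by_cases hw : ∃ i1, ∀ᶠ n in atTop, w n = x i1 n
    · obtain ⟨i1, hi1⟩ := hw
      refine ((countable_iUnion fun N => hgap fun n => m i1 (max n N) + 1).insert i0).mono ?_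
      intro i hi
      by_cases hi0 : i = i0
      · exact Or.inl hi0
      simp only [mem_ofPred_eq, g, if_neg hi0] at hi
      obtain ⟨N, hN⟩ := eventually_atTop.mp (hi.and hi1)
      refine Or.inr (mem_iUnion.mpr ⟨N, fun n => ?_⟩)
      have h1 : max n N ≤ m i1 (max n N) := (hm i1).le_apply
      have h2 := hN _ (le_of_max_le_right h1)
      have h3 := he (h2.1.symm.trans h2.2)
      rw [decide_eq_decide] at h3
      obtain ⟨l, hl⟩ := h3.mpr ⟨_, rfl⟩
      exact ⟨l, hl ▸ le_of_max_le_left h1, by omega⟩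
    · refine (countable_singleton i0).mono fun i hi => ?_
      by_contra hi0
      have hi0' : ¬ i = i0 := hi0
      simp only [mem_ofPred_eq, g, if_neg hi0'] at hi
      exact hw ⟨i, hi⟩
  obtain ⟨φ, hφ, hinj, hmaps⟩ := h _ _ (aleph1Dense_fam g hg) hB
  let q : Finset ℕ → ℕ → K := fun F n => e (decide (n ∈ F))
  have hq : ∀ F, q F ∈ fam g := by
    intro F
    refine mem_fam.mpr ⟨i0, ?_⟩
    have : ∀ᶠ n in atTop, n ∉ F := by
      rw [← Nat.cofinite_eq_atTop]
      exact F.finite_toSet.compl_mem_cofinite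
    exact this.mono fun n hn => by simp [q, g, hn]
  choose α hα using fun F => mem_fam.mp (hmaps (hq F))
  obtain ⟨γ, hγ⟩ := exists_above (range α) (countable_range α)
  have hk : ∀ N F, ∃ p, N ≤ p ∧ ∃ c < y γ p, φ (q F) (Nat.pair p c) = e true := by
    intro N F
    obtain ⟨p, h1, h2, h3⟩ := ((eventually_ge_atTop N).and
      ((gr_ev he (hα F)).and (hy _ _ (hγ _ ⟨F, rfl⟩)))).exists
    exact ⟨p, h1, _, h3, (h2 _).mpr rfl⟩
  choose p hp1 c hc1 hc2 using hk
  let H : ℕ → ℕ → ℕ := fun N n =>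
    ∑ F ∈ (Finset.range n).powerset, (Nat.pair (p N F) (c N F) + 1)
  have hC : (⋃ a ∈ Iio γ, cls (gr e (y a))).Countable :=
    (countable_Iio γ).biUnion fun a _ => countable_cls _
  have hfib : ∀ w, {i | φ (g i) = w}.Countable := by
    intro w
    by_cases hw : ∃ i1, φ (g i1) = w
    · obtain ⟨i1, rfl⟩ := hw
      refine (hg (g i1)).mono fun i hi => Eventually.of_forall fun n => ?_
      rw [hinj (self_mem_fam g i) (self_mem_fam g i1) hi]
    · exact countable_empty.mono fun i hi => hw ⟨i, hi⟩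
  refine not_countable_W ((((countable_iUnion fun N => hgap (H N)).union
    (hC.biUnion fun w _ => hfib w)).insert i0).mono fun i _ => ?_)
  by_cases hi0 : i = i0
  · exact Or.inl hi0
  refine Or.inr ?_
  by_cases hi : ∃ N, ∀ n, ∃ l, n ≤ m i l ∧ m i l < H N n
  · exact Or.inl (mem_iUnion.mpr hi)
  push Not at hi
  obtain ⟨a, ha⟩ := mem_fam.mp (hmaps (self_mem_fam g i))
  refine Or.inr (mem_biUnion (mem_biUnion (x := a) ?_ ha) rfl)
  by_contra hle
  have hle' : γ ≤ a := not_lt.mp hle
  have h1 : ∀ᶠ t in atTop, y γ t ≤ y a t := by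
    rcases hle'.eq_or_lt with rfl | hlt
    · exact Eventually.of_forall fun _ => le_rfl
    · exact (hy _ _ hlt).mono fun t ht => ht.le
  obtain ⟨N, hN⟩ := eventually_atTop.mp ((gr_ev he ha).and h1)
  obtain ⟨n, hn⟩ := hi N
  let F := (Finset.range n).filter fun t => ∃ l, m i l = t
  have h2 : Nat.pair (p N F) (c N F) + 1 ≤ H N n :=
    Finset.single_le_sum (f := fun F => Nat.pair (p N F) (c N F) + 1) (fun _ _ => Nat.zero_le _)
      (Finset.mem_powerset.mpr (Finset.filter_subset _ _))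
  have h3 := hφ (H N n) (g i) (q F) (fun t ht => by
    simp only [g, if_neg hi0, x, q, F, Finset.mem_filter, Finset.mem_range]
    congr 1
    rw [decide_eq_decide]
    refine ⟨fun ⟨l, hl⟩ => ⟨?_, l, hl⟩, fun h => h.2⟩
    by_contra hnt
    have := hn l (by omega)
    omega) _ h2
  rw [hc2] at h3
  have h4 := hN _ (hp1 N F)
  have h5 := (h4.1 _).mp h3
  have h6 := hc1 N F
  omega

theorem union_null_any [Countable K] [Nontrivial K] [TopologicalSpace K] (h : BALip K)
    (𝒩 : Set (Set ℝ)) (hcard : #𝒩 ≤ ℵ₁) (hnull : ∀ N ∈ 𝒩, volume N = 0) :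
    volume (⋃₀ 𝒩) = 0 := by
  by_contra hU
  obtain ⟨f, hf⟩ := exists_unlocalised 𝒩 hcard hnull hU
  obtain ⟨k0, k1, hk⟩ := exists_pair_ne K
  let e : Bool → K := fun b => cond b k0 k1
  have he : Injective e := by
    intro b b' hb
    cases b <;> cases b' <;> simp_all [e, hk.symm]
  by_cases hb : ∀ b : ℕ → ℕ, {i | ∀ᶠ p in atTop, f i p ≤ b p}.Countable
  · exact unbounded_case h he f hb
  · push Not at hb
    obtain ⟨b, hb⟩ := hb
    rw [countable_iff_lt, not_lt, ← mk_W] at hb
    obtain ⟨r⟩ := (Cardinal.le_def _ _).mp hb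
    refine bounded_case h he (fun i => f (r i).1) b (fun i => (r i).2) fun S hS => ?_
    exact (hf S hS).preimage (f := fun i => (r i).1) (Subtype.val_injective.comp r.injective)

theorem aleph_one_lt_add_any [Countable K] [Nontrivial K] [TopologicalSpace K] (h : BALip K) :
    ℵ₁ < sInf {κ : Cardinal.{0} | ∃ 𝒩 : Set (Set ℝ), #𝒩 = κ ∧ (∀ N ∈ 𝒩, volume N = 0) ∧
      volume (⋃₀ 𝒩) ≠ 0} := by
  have hne : {κ : Cardinal.{0} | ∃ 𝒩 : Set (Set ℝ), #𝒩 = κ ∧ (∀ N ∈ 𝒩, volume N = 0) ∧
      volume (⋃₀ 𝒩) ≠ 0}.Nonempty := by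
    refine ⟨_, range (fun x : ℝ => ({x} : Set ℝ)), rfl, ?_, ?_⟩
    · rintro N ⟨x, rfl⟩
      exact Real.volume_singleton
    · rw [sUnion_range, iUnion_of_singleton, Real.volume_univ]
      exact ENNReal.top_ne_zero
  obtain ⟨𝒩, h1, h2, h3⟩ := csInf_mem hne
  rw [← h1, ← not_le]
  exact fun hle => h3 (union_null_any h 𝒩 hle h2)

end

end Pool.Agent.Lib.MP_84ba36_lc
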