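import Pool.Agent.Lib.MP_84ba36_lc.Barred

/-!
The weak Lipschitz Baumgartner statement is refutable.
-/

set_option autoImplicit false

namespace Pool.Agent.Lib.MP_84ba36_lc

open Set Cardinal Filter Function

theorem not_countable_le (l : W → W) (hl : ∀ i, {α | l α = i}.Countable) :
    ¬ {α | α ≤ l α}.Countable := by
  intro hc
  obtain ⟨γ0, h0⟩ := exists_above _ hc
  have hnext : ∀ i, ∃ γ, i < γ ∧ ∀ α, l α ≤ i → α < γ := by
    intro i
    obtain ⟨γ, hγ⟩ := exists_above _
      (((countable_Iic i).biUnion fun i' _ => hl i').insert i)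
    exact ⟨γ, hγ i (mem_insert _ _), fun α hα =>
      hγ α (mem_insert_of_mem _ (mem_biUnion (x := l α) hα rfl))⟩
  choose nx hnx1 hnx2 using hnext
  obtain ⟨ub, hub⟩ := exists_above _ (countable_range fun n => nx^[n] γ0)
  obtain ⟨δ, hδ, hmin⟩ := (wellFounded_lt (α := W)).has_min {δ | ∀ n, nx^[n] γ0 ≤ δ}
    ⟨ub, fun n => (hub _ ⟨n, rfl⟩).le⟩
  have h1 : l δ < δ := by
    by_contra h2
    exact absurd (h0 δ (not_lt.mp h2)) (not_lt.mpr (hδ 0))
  have h3 : ∃ n, l δ ≤ nx^[n] γ0 := by
    by_contra h4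
    exact hmin (l δ) (fun n => (not_le.mp fun h5 => h4 ⟨n, h5⟩).le) h1
  obtain ⟨n, hn⟩ := h3
  have h6 := hδ (n + 1)
  rw [iterate_succ_apply'] at h6
  exact absurd (hnx2 _ δ hn) (not_lt.mpr h6)

theorem not_BALip {K : Type} [Countable K] [Nontrivial K] [TopologicalSpace K] :
    ¬ BALip K := by
  intro h
  classical
  obtain ⟨k0, k1, hk⟩ := exists_pair_ne K
  let e : Bool → K := fun b => cond b k0 k1
  have he : Injective e := by
    intro b b' hb
    cases b <;> cases b' <;> simp_all [e, hk.symm]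
  obtain ⟨j0, hj0⟩ := exists_code
  obtain ⟨B, hB⟩ : ∃ D : Set (ℕ → K), Aleph1Dense D := ⟨_, aleph1Dense_code he hj0 ∅⟩
  obtain ⟨bb⟩ : Nonempty (W ≃ B) := by
    have := hB univ isOpen_univ univ_nonempty
    rw [inter_univ, ← mk_W] at this
    exact Cardinal.eq.mp this.symm
  choose ee hee using fun i : W => (countable_Iic i).exists_eq_range nonempty_Iic
  obtain ⟨τ, hτ, hτ2⟩ : ∃ τ : ℕ → ℕ, StrictMono τ ∧
      ∀ p c, c ≤ 2 ^ (p + 1) → Nat.pair p c < τ p := by
    refine ⟨fun p => p + ∑ q ∈ Finset.range (p + 1), (Nat.pair q (2 ^ (q + 1)) + 1),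
      strictMono_nat_of_lt_succ fun p => ?_, fun p c hc => ?_⟩
    · simp only [Finset.sum_range_succ _ (p + 1)]
      omega
    · have h1 : Nat.pair p c ≤ Nat.pair p (2 ^ (p + 1)) := by
        rcases hc.eq_or_lt with rfl | h
        · exact le_rfl
        · exact (Nat.pair_lt_pair_right p h).le
      simp only [Finset.sum_range_succ _ p]
      omega
  choose enc henc using fun p : ℕ => exists_injective_nat (Fin (p + 1) → Fin (τ (p + 1)) → K)
  let F : W → ℕ → ℕ := fun i p => enc p fun j n => (bb (ee i j)).1 n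
  obtain ⟨S, hS, hI⟩ := exists_slalom h he F
  have hen : ∀ p v, ∃ c, v ∈ S p → c ≤ 2 ^ (p + 1) ∧ (S p).toList.getD c 0 = v := by
    intro p v
    by_cases hv : v ∈ S p
    · obtain ⟨c, hc, hcv⟩ := List.mem_iff_getElem.mp (Finset.mem_toList.mpr hv)
      refine ⟨c, fun _ => ⟨?_, ?_⟩⟩
      · have := hS p
        have h2 := hc
        rw [Finset.length_toList] at h2
        omega
      · rw [List.getD_eq_getElem _ _ hc, hcv]
    · exact ⟨0, fun h1 => absurd h1 hv⟩
  choose idx hidx using hen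
  rw [countable_iff_lt, not_lt, ← mk_W] at hI
  obtain ⟨r⟩ := (Cardinal.le_def _ _).mp hI
  have hrinj : Injective fun i => (r i).1 := Subtype.val_injective.comp r.injective
  let g : W → ℕ → K := fun i => gr e fun p => idx p (F (r i).1 p)
  let dec : (ℕ → K) → ℕ → ℕ := fun x p =>
    sInf {c | c ≤ 2 ^ (p + 1) ∧ x (Nat.pair p c) = e true}
  let cand : ℕ → (ℕ → K) → ℕ → ℕ → K := fun j x p n =>
    if h : j < p + 1 ∧ n < τ (p + 1) then
      invFun (enc p) ((S p).toList.getD (dec x p) 0) ⟨j, h.1⟩ ⟨n, h.2⟩ else k0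
  have hc : ∀ j p x y, (∀ n < τ p, x n = y n) → cand j x p = cand j y p := by
    intro j p x y hxy
    have : dec x p = dec y p := by
      simp only [dec]
      congr 1
      ext c
      exact and_congr_right fun hc => by rw [hxy _ (hτ2 p c hc)]
    simp only [cand, this]
  have hcand : ∀ i x, (∀ᶠ n in atTop, x n = g i n) → ∀ j, ∃ N, ∀ p, N ≤ p →
      ∀ n < τ (p + 1), cand j x p n = (bb (ee (r i).1 j)).1 n := by
    intro i x hx j
    have h0 : ∀ᶠ p in atTop, F (r i).1 p ∈ S p := (r i).2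
    obtain ⟨N, hN⟩ := eventually_atTop.mp 
      ((gr_ev (y := fun p => idx p (F (r i).1 p)) he hx).and h0)
    refine ⟨N + j, fun p hp n hn => ?_⟩
    obtain ⟨h1, h2⟩ := hN p (by omega)
    obtain ⟨h3, h4⟩ := hidx p _ h2
    have h5 : {c | c ≤ 2 ^ (p + 1) ∧ x (Nat.pair p c) = e true} = {idx p (F (r i).1 p)} := by
      ext c
      simp only [mem_ofPred_eq, h1, mem_singleton_iff]
      exact ⟨fun h => h.2.symm, fun h => ⟨h ▸ h3, h.symm⟩⟩
    have h6 : dec x p = idx p (F (r i).1 p) := by simp only [dec, h5, csInf_singleton]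
    have h7 : j < p + 1 ∧ n < τ (p + 1) := ⟨by omega, hn⟩
    simp only [cand, dif_pos h7, h6, h4]
    have h8 : ∀ v, invFun (enc p) (enc p v) = v := leftInverse_invFun (henc p)
    simp only [F, h8]
  have hB' : Aleph1Dense (fam g) := by
    apply aleph1Dense_fam
    intro x
    refine Set.Subsingleton.countable fun i hi i' hi' => hrinj ?_
    have h1 : ee (r i).1 = ee (r i').1 := by
      funext j
      apply bb.injective
      apply Subtype.ext
      funext n
      obtain ⟨N, hN⟩ := hcand i x hi j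
      obtain ⟨N', hN'⟩ := hcand i' x hi' j
      have hn : n < τ (N + N' + n + 1) := lt_of_lt_of_le (by omega) hτ.le_apply
      rw [← hN _ (by omega) n hn, ← hN' _ (by omega) n hn]
    have h2 : Iic (r i).1 = Iic (r i').1 := by rw [hee, hee, h1]
    exact Iic_injective h2
  obtain ⟨φ, hφ, hinj, hmaps⟩ := h B _ hB hB'
  choose ι hι using fun α : W => mem_fam.mp (hmaps (bb α).2)
  have hιc : ∀ i, {α | ι α = i}.Countable := by
    intro i
    refine MapsTo.countable_of_injOn (f := fun α => φ (bb α).1) (fun α hα => ?_) ?_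
      (countable_cls (g i))
    · have h1 : ι α = i := hα
      have h2 := hι α
      rw [h1] at h2
      exact h2
    · intro α _ β _ hab
      exact bb.injective (Subtype.ext (hinj (bb α).2 (bb β).2 hab))
  refine not_countable_le (fun α => (r (ι α)).1) (fun i => ?_) ?_
  · refine (((countable_singleton i).preimage hrinj).biUnion fun i' _ => hιc i').mono ?_
    intro α hα
    exact mem_biUnion (x := ι α) hα rfl
  · have hex : ∀ α, ∃ t : ℕ × ℕ, α ≤ (r (ι α)).1 → ∀ p, t.2 ≤ p →
        ∀ n < τ (p + 1), cand t.1 (φ (bb α).1) p n = (bb α).1 n := by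
      intro α
      by_cases hα : α ≤ (r (ι α)).1
      · obtain ⟨j, hj⟩ : α ∈ range (ee (r (ι α)).1) := by
          rw [← hee]
          exact hα
        obtain ⟨N, hN⟩ := hcand _ _ (hι α) j
        rw [hj] at hN
        exact ⟨(j, N), fun _ => hN⟩
      · exact ⟨(0, 0), fun h1 => absurd h1 hα⟩
    choose t ht using hex
    refine MapsTo.countable_of_injOn
      (f := fun α => (t α, (List.range (τ (t α).2)).map (bb α).1)) (mapsTo_univ _ _) ?_
      countable_univ
    intro α hα β hβ hab
    obtain ⟨h1, h2⟩ := Prod.mk.inj hab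
    rw [← h1] at h2
    have h3 : ∀ p, (t α).2 ≤ p → ∀ n < τ p, (bb α).1 n = (bb β).1 n := by
      intro p hp
      induction p, hp using Nat.le_induction with
      | base => exact fun n hn => List.map_inj_left.mp h2 n (List.mem_range.mpr hn)
      | succ p hp ih =>
        intro n hn
        rw [← ht α hα p hp n hn, ← ht β hβ p (h1 ▸ hp) n hn, ← h1,
          hc _ p _ _ (hφ (τ p) _ _ ih)]
    refine bb.injective (Subtype.ext (funext fun n => ?_))
    exact h3 ((t α).2 + n + 1) (by omega) n (lt_of_lt_of_le (by omega) hτ.le_apply)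

end Pool.Agent.Lib.MP_84ba36_lc
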