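import Pool.Agent.Lib.MP_84ba36_lc.Basic

/-!
Coding null sets of reals by sequences of natural numbers, slaloms, and additivity of the null ideal
from the weak Lipschitz Baumgartner statement for Baire space.
-/

set_option autoImplicit false

namespace Pool.Agent.Lib.MP_84ba36_lc

open Set Cardinal Filter Function MeasureTheory Topology
open scoped ENNReal

theorem exists_basis_seq : ∃ b : ℕ → Set ℝ, (∀ k, IsOpen (b k)) ∧
    ∀ U : Set ℝ, IsOpen U → ∀ x ∈ U, ∃ k, x ∈ b k ∧ b k ⊆ U := by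
  obtain ⟨B, hBc, -, hB⟩ := TopologicalSpace.exists_countable_basis ℝ
  obtain ⟨b, hb⟩ := (hBc.insert ∅).exists_eq_range (insert_nonempty _ _)
  refine ⟨b, fun k => ?_, fun U hU x hx => ?_⟩
  · have : b k ∈ insert ∅ B := by
      rw [hb]
      exact mem_range_self k
    rcases this with h | h
    · rw [h]
      exact isOpen_empty
    · exact hB.isOpen h
  · obtain ⟨v, hv, hxv, hvU⟩ := hB.exists_subset_of_mem_open hx hU
    have : v ∈ range b := by
      rw [← hb]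
      exact mem_insert_of_mem _ hv
    obtain ⟨k, rfl⟩ := this
    exact ⟨k, hxv, hvU⟩

/-- There is a countable family of sets such that every open set of small measure is covered by a
sequence of members of the family with prescribed small measures. -/
theorem exists_cover : ∃ C : ℕ → Set ℝ, ∀ U : Set ℝ, IsOpen U → ∀ δ : ℕ → ℝ≥0∞, (∀ m, 0 < δ m) →
    volume U ≠ ∞ → volume U ≤ δ 0 →
    ∃ g : ℕ → ℕ, (∀ m, volume (C (g m)) ≤ δ m) ∧ ∀ x ∈ U, ∃ m, x ∈ C (g m) := by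
  classical
  obtain ⟨b, hbo, hb⟩ := exists_basis_seq
  let C0 : Finset ℕ × Finset ℕ → Set ℝ := fun p => (⋃ k ∈ p.1, b k) \ (⋃ k ∈ p.2, b k)
  obtain ⟨σ, hσ⟩ := exists_surjective_nat (Finset ℕ × Finset ℕ)
  refine ⟨fun c => C0 (σ c), ?_⟩
  intro U hU δ hδ hfin h0
  let s : ℕ → Finset ℕ := fun j => (Finset.range j).filter fun k => b k ⊆ U
  let K : ℕ → Set ℝ := fun j => ⋃ k ∈ s j, b k
  have hKo : ∀ j, IsOpen (K j) := fun j => isOpen_biUnion fun k _ => hbo k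
  have hKU : ∀ j, K j ⊆ U := fun j => iUnion₂_subset fun k hk => (Finset.mem_filter.mp hk).2
  have hKm : Monotone K := by
    intro j j' hj
    refine biUnion_subset_biUnion_left ?_
    intro k hk
    have hk' := Finset.mem_filter.mp hk
    exact Finset.mem_filter.mpr
      ⟨Finset.mem_range.mpr ((Finset.mem_range.mp hk'.1).trans_le hj), hk'.2⟩
  have hKc : ∀ x ∈ U, ∃ j, x ∈ K j := by
    intro x hx
    obtain ⟨k, hxk, hkU⟩ := hb U hU x hx
    exact ⟨k + 1, mem_biUnion (s := (s (k + 1) : Set ℕ))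
      (Finset.mem_filter.mpr ⟨Finset.self_mem_range_succ k, hkU⟩) hxk⟩
  have hlim : Tendsto (volume ∘ fun j => U \ K j) atTop (𝓝 (volume (⋂ j, U \ K j))) :=
    tendsto_measure_iInter_atTop
      (fun j => (hU.measurableSet.diff (hKo j).measurableSet).nullMeasurableSet)
      (fun j j' hj => sdiff_subset_sdiff_right (hKm hj))
      ⟨0, ne_top_of_le_ne_top hfin (measure_mono sdiff_subset)⟩
  have hemp : (⋂ j, U \ K j) = ∅ := by
    rw [eq_empty_iff_forall_notMem]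
    intro x hx
    rw [mem_iInter] at hx
    obtain ⟨j, hj⟩ := hKc x (hx 0).1
    exact (hx j).2 hj
  rw [hemp, measure_empty] at hlim
  have hj : ∀ m, ∃ j, m ≤ j ∧ volume (U \ K j) ≤ δ (m + 1) := by
    intro m
    obtain ⟨j, hj1, hj2⟩ :=
      ((eventually_ge_atTop m).and (hlim.eventually (ge_mem_nhds (hδ (m + 1))))).exists
    exact ⟨j, hj1, hj2⟩
  choose j hjm hjδ using hj
  let g0 : ℕ → Finset ℕ × Finset ℕ := fun m =>
    match m with
    | 0 => (s (j 0), ∅)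
    | m + 1 => (s (j (m + 1)), s (j m))
  refine ⟨fun m => surjInv hσ (g0 m), ?_, ?_⟩
  · intro m
    simp only [surjInv_eq hσ]
    cases m with
    | zero => exact (measure_mono (sdiff_subset.trans (hKU (j 0)))).trans h0
    | succ m => exact (measure_mono (sdiff_subset_sdiff_left (hKU (j (m + 1))))).trans (hjδ m)
  · intro x hx
    have hex : ∃ m, x ∈ K (j m) := by
      obtain ⟨m, hm⟩ := hKc x hx
      exact ⟨m, hKm (hjm m) hm⟩
    refine ⟨Nat.find hex, ?_⟩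
    simp only [surjInv_eq hσ]
    have h1 := Nat.find_spec hex
    cases hm : Nat.find hex with
    | zero =>
      rw [hm] at h1
      exact ⟨h1, by simp [g0]⟩
    | succ m =>
      have h2 := Nat.find_min hex (m := m) (by omega)
      rw [hm] at h1
      exact ⟨h1, h2⟩

/-- Every null set is contained in the limit superior of a coded sequence of small sets. -/
theorem exists_null_code (ε : ℕ → ℝ≥0∞) (hε : ∀ p, 0 < ε p) : ∃ C : ℕ → Set ℝ,
    ∀ M : Set ℝ, volume M = 0 →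
      ∃ f : ℕ → ℕ, (∀ p, volume (C (f p)) ≤ ε p) ∧ ∀ x ∈ M, ∃ᶠ p in atTop, x ∈ C (f p) := by
  obtain ⟨C, hC⟩ := exists_cover
  refine ⟨C, fun M hM => ?_⟩
  have h1 : ∀ n, ∃ g : ℕ → ℕ, (∀ m, volume (C (g m)) ≤ ε (Nat.pair n m)) ∧
      ∀ x ∈ M, ∃ m, x ∈ C (g m) := by
    intro n
    obtain ⟨U, hMU, hUo, hU⟩ := M.exists_isOpen_lt_of_lt (μ := volume) (ε (Nat.pair n 0))
      (by rw [hM]; exact hε _)
    obtain ⟨g, hg1, hg2⟩ := hC U hUo (fun m => ε (Nat.pair n m)) (fun m => hε _)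
      (ne_top_of_lt hU) hU.le
    exact ⟨g, hg1, fun x hx => hg2 x (hMU hx)⟩
  choose g hg1 hg2 using h1
  refine ⟨fun p => g (Nat.unpair p).1 (Nat.unpair p).2, fun p => ?_, fun x hx => ?_⟩
  · have := hg1 (Nat.unpair p).1 (Nat.unpair p).2
    rwa [Nat.pair_unpair] at this
  · rw [frequently_atTop]
    intro n
    obtain ⟨m, hm⟩ := hg2 n x hx
    exact ⟨Nat.pair n m, Nat.left_le_pair n m, by simpa using hm⟩

/-- The sets coded inside a slalom of width `2 ^ (p + 1)` have a null limit superior. -/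
theorem slalom_null (C : ℕ → Set ℝ) (S : ℕ → Finset ℕ) (hS : ∀ p, (S p).card ≤ 2 ^ (p + 1)) :
    volume {x : ℝ | ∃ᶠ p in atTop,
      ∃ c ∈ S p, volume (C c) ≤ ((2 : ℝ≥0∞)⁻¹) ^ (2 * p + 1) ∧ x ∈ C c} = 0 := by
  classical
  apply measure_setOfPred_frequently_eq_zero
  have h1 : ∀ p, volume {x : ℝ | ∃ c ∈ S p, volume (C c) ≤ ((2 : ℝ≥0∞)⁻¹) ^ (2 * p + 1) ∧ x ∈ C c}
      ≤ ((2 : ℝ≥0∞)⁻¹) ^ p := by
    intro p
    let T := (S p).filter fun c => volume (C c) ≤ ((2 : ℝ≥0∞)⁻¹) ^ (2 * p + 1)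
    have h2 : {x : ℝ | ∃ c ∈ S p, volume (C c) ≤ ((2 : ℝ≥0∞)⁻¹) ^ (2 * p + 1) ∧ x ∈ C c} ⊆
        ⋃ c ∈ T, C c := by
      rintro x ⟨c, hc, hc1, hc2⟩
      exact mem_biUnion (s := (T : Set ℕ)) (Finset.mem_filter.mpr ⟨hc, hc1⟩) hc2
    have h3 : (T.card : ℝ≥0∞) ≤ 2 ^ (p + 1) := by
      have : T.card ≤ 2 ^ (p + 1) := (Finset.card_filter_le _ _).trans (hS p)
      exact_mod_cast this
    have h4 : (2 : ℝ≥0∞) ^ (p + 1) * ((2 : ℝ≥0∞)⁻¹) ^ (2 * p + 1) = ((2 : ℝ≥0∞)⁻¹) ^ p := by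
      have h5 : 2 * p + 1 = (p + 1) + p := by ring
      rw [h5, pow_add _ (p + 1) p, ← mul_assoc, ← mul_pow,
        ENNReal.mul_inv_cancel two_ne_zero ENNReal.ofNat_ne_top, one_pow, one_mul]
    calc volume {x : ℝ | ∃ c ∈ S p, volume (C c) ≤ ((2 : ℝ≥0∞)⁻¹) ^ (2 * p + 1) ∧ x ∈ C c}
        ≤ volume (⋃ c ∈ T, C c) := measure_mono h2
      _ ≤ ∑ c ∈ T, volume (C c) := measure_biUnion_finset_le _ _
      _ ≤ ∑ _c ∈ T, ((2 : ℝ≥0∞)⁻¹) ^ (2 * p + 1) :=
          Finset.sum_le_sum fun c hc => (Finset.mem_filter.mp hc).2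
      _ = T.card * ((2 : ℝ≥0∞)⁻¹) ^ (2 * p + 1) := by rw [Finset.sum_const, nsmul_eq_mul]
      _ ≤ 2 ^ (p + 1) * ((2 : ℝ≥0∞)⁻¹) ^ (2 * p + 1) := by gcongr
      _ = ((2 : ℝ≥0∞)⁻¹) ^ p := h4
  refine ne_top_of_le_ne_top ?_ (ENNReal.tsum_le_tsum h1)
  rw [ENNReal.tsum_geometric]
  simp

/-- If `ℵ₁` null sets have a non-null union, then there is an `ω₁`-sequence in Baire space such
that every slalom of width `2 ^ (p + 1)` captures only countably many terms. -/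
theorem exists_unlocalised (𝒩 : Set (Set ℝ)) (hcard : #𝒩 ≤ ℵ₁) (hnull : ∀ N ∈ 𝒩, volume N = 0)
    (hU : volume (⋃₀ 𝒩) ≠ 0) :
    ∃ f : W → ℕ → ℕ, ∀ S : ℕ → Finset ℕ, (∀ p, (S p).card ≤ 2 ^ (p + 1)) →
      {i | ∀ᶠ p in atTop, f i p ∈ S p}.Countable := by
  rw [← mk_W] at hcard
  obtain ⟨emb⟩ := (Cardinal.le_def _ _).mp hcard
  let M : W → Set ℝ := fun i => ⋃ N : {N : 𝒩 // emb N ≤ i}, N.1.1
  have hM : ∀ i, volume (M i) = 0 := by
    intro i
    have : Countable {N : 𝒩 // emb N ≤ i} :=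
      ((countable_Iic i).preimage emb.injective).to_subtype
    exact measure_iUnion_null fun N => hnull _ N.1.2
  obtain ⟨C, hC⟩ := exists_null_code (fun p => ((2 : ℝ≥0∞)⁻¹) ^ (2 * p + 1))
    (fun p => ENNReal.pow_pos (by simp) _)
  choose f hf1 hf2 using fun i => hC (M i) (hM i)
  refine ⟨f, fun S hS => ?_⟩
  by_contra hnc
  apply hU
  refine measure_mono_null ?_ (slalom_null C S hS)
  rintro x ⟨N, hN, hxN⟩
  obtain ⟨i, hi, hle⟩ : ∃ i, (∀ᶠ p in atTop, f i p ∈ S p) ∧ emb ⟨N, hN⟩ ≤ i := by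
    by_contra hno
    push Not at hno
    exact hnc ((countable_Iio (emb ⟨N, hN⟩)).mono fun i hi => hno i hi)
  have hx : x ∈ M i := mem_iUnion.mpr ⟨⟨⟨N, hN⟩, hle⟩, hxN⟩
  exact ((hf2 i x hx).and_eventually hi).mono fun p hp => ⟨f i p, hp.2, hf1 i p, hp.1⟩

theorem union_null (h : BALip ℕ) (𝒩 : Set (Set ℝ)) (hcard : #𝒩 ≤ ℵ₁)
    (hnull : ∀ N ∈ 𝒩, volume N = 0) : volume (⋃₀ 𝒩) = 0 := by
  classical
  by_contra hU
  obtain ⟨f, hf⟩ := exists_unlocalised 𝒩 hcard hnull hU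
  have hB : Aleph1Dense (fam f) := by
    apply aleph1Dense_fam
    intro x
    refine (hf (fun p => {x p}) (fun p => ?_)).mono ?_
    · rw [Finset.card_singleton]
      exact Nat.one_le_two_pow
    · intro i hi
      exact hi.mono fun p hp => by simp [hp]
  obtain ⟨j, hj⟩ := exists_code
  let e : Bool → ℕ := fun b => cond b 0 1
  have he : Injective e := by
    intro b b' hb
    cases b <;> cases b' <;> simp_all [e]
  let g : W → ℕ → ℕ := fun i => spread e (j i ∅)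
  have hA : Aleph1Dense (fam g) := aleph1Dense_code he hj ∅
  obtain ⟨φ, hφ, hinj, hmaps⟩ := h _ _ hA hB
  let ext : (p : ℕ) → (Fin (p + 1) → Bool) → ℕ → ℕ := fun p s n =>
    if hn : n < p + 1 then e (s ⟨n, hn⟩) else 0
  let S : ℕ → Finset ℕ := fun p => Finset.univ.image fun s => φ (ext p s) p
  have hS : ∀ p, (S p).card ≤ 2 ^ (p + 1) := by
    intro p
    refine Finset.card_image_le.trans ?_
    simp
  have hgS : ∀ i p, φ (g i) p ∈ S p := by
    intro i p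
    refine Finset.mem_image.mpr ⟨fun n => j i ∅ (Nat.unpair n).1, Finset.mem_univ _, ?_⟩
    refine hφ (p + 1) _ _ (fun n hn => ?_) p (Nat.lt_succ_self p)
    simp only [ext, dif_pos hn, g, spread]
  have hc : (⋃ i ∈ {i | ∀ᶠ p in atTop, f i p ∈ S p}, cls (f i)).Countable :=
    (hf S hS).biUnion fun i _ => countable_cls _
  apply not_countable_W
  refine MapsTo.countable_of_injOn (f := fun i => φ (g i)) ?_ ?_ hc
  · intro i _
    obtain ⟨i', hi'⟩ := mem_fam.mp (hmaps (self_mem_fam g i))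
    refine mem_biUnion (x := i') ?_ hi'
    exact hi'.mono fun p hp => hp ▸ hgS i p
  · intro i _ i' _ hii
    have h1 : g i = g i' := hinj (self_mem_fam g i) (self_mem_fam g i') hii
    have h2 : j i ∅ = j i' ∅ := spread_inj he (x := g i)
      (Eventually.of_forall fun _ => rfl) (Eventually.of_forall fun n => congrFun h1 n)
    exact (hj _ _ _ _ h2).1

theorem aleph_one_lt_add (h : BALip ℕ) :
    ℵ₁ < sInf {κ : Cardinal.{0} | ∃ 𝒩 : Set (Set ℝ), #𝒩 = κ ∧ (∀ N ∈ 𝒩, volume N = 0) ∧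
      volume (⋃₀ 𝒩) ≠ 0} := by
  have hne : {κ : Cardinal.{0} | ∃ 𝒩 : Set (Set ℝ), #𝒩 = κ ∧ (∀ N ∈ 𝒩, volume N = 0) ∧
      volume (⋃₀ 𝒩) ≠ 0}.Nonempty := by
    refine ⟨_, range (fun x : ℝ => ({x} : Set ℝ)), rfl, ?_, ?_⟩
    · rintro N ⟨x, rfl⟩
      exact Real.volume_singleton
    · rw [sUnion_range, iUnion_of_singleton, Real.volume_univ]
      exact ENNReal.top_ne_zero
  obtain ⟨𝒩, h1, h2, h3⟩ := csInf_mem hne
  rw [← h1, ← not_le]
  exact fun hle => h3 (union_null h 𝒩 hle h2)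

end Pool.Agent.Lib.MP_84ba36_lc
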