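import Pool.Agent.Lib.MP_84ba36_lc.Cantor

/-!
Under the weak Baumgartner statement for continuous maps every subset of an `ℵ₁`-dense set is relatively
a countable union of closed sets.
-/

set_option autoImplicit false

namespace Pool.Agent.Lib.MP_84ba36_lc

open Set Cardinal Filter Function Topology

section
variable {K : Type}

/-- The weak Baumgartner statement with maps that are continuous on `A`. -/
def BACont (K : Type) [TopologicalSpace K] : Prop :=
  ∀ A B : Set (ℕ → K), Aleph1Dense A → Aleph1Dense B →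
    ∃ f : (ℕ → K) → (ℕ → K), ContinuousOn f A ∧ InjOn f A ∧ MapsTo f A B

theorem cqstep [Countable K] [Nontrivial K] [TopologicalSpace K] [DiscreteTopology K]
    (h : BACont K) {A X : Set (ℕ → K)} (hA : Aleph1Dense A) (a : W ≃ A) {x0 : ℕ → K}
    (hx0 : x0 ∈ X) (ψ : W → W) :
    ∃ (F : ℕ × ℕ → Set (ℕ → K)) (ι : W → W), (∀ t, IsClosed (F t)) ∧ (∀ t, A ∩ F t ⊆ X) ∧
      (∀ i, {α | ι α = i}.Countable) ∧
      ∀ α, α ≤ ψ (ι α) → (a α).1 ∈ X → ∃ t, (a α).1 ∈ F t := by
  classical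
  obtain ⟨k0, k1, hk⟩ := exists_pair_ne K
  let e : Bool → K := fun b => cond b k0 k1
  have he : Injective e := by
    intro b b' hb
    cases b <;> cases b' <;> simp_all [e, hk.symm]
  obtain ⟨enc, henc⟩ := exists_injective_nat K
  obtain ⟨j0, hj0⟩ := exists_code
  choose ee hee using fun i : W => (countable_Iic i).exists_eq_range nonempty_Iic
  let L : W → ℕ → ℕ → K := fun i j =>
    if (a (ee (ψ i) j)).1 ∈ X then (a (ee (ψ i) j)).1 else x0
  have hL : ∀ i j, L i j ∈ X := by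
    intro i j
    simp only [L]
    split_ifs with h1
    exacts [h1, hx0]
  let c : W → ℕ → Bool := fun i m => Nat.casesOn m.unpair.1 (j0 i ∅ m.unpair.2)
    fun j => decide (enc (L i j m.unpair.2.unpair.1) = m.unpair.2.unpair.2)
  have hc0 : ∀ i m, c i (Nat.pair 0 m) = j0 i ∅ m := fun i m => by
    simp only [c, Nat.unpair_pair]
    rfl
  have hc1 : ∀ i j t l, c i (Nat.pair (j + 1) (Nat.pair t l)) = decide (enc (L i j t) = l) :=
    fun i j t l => by simp only [c, Nat.unpair_pair]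
  have hB : Aleph1Dense (fam fun i => spread e (c i)) := by
    apply aleph1Dense_fam
    intro x
    refine Set.Subsingleton.countable fun i hi i' hi' => ?_
    have h1 := spread_inj he hi hi'
    refine (hj0 i i' ∅ ∅ (funext fun m => ?_)).1
    rw [← hc0, ← hc0, h1]
  obtain ⟨φ, hφ, hinj, hmaps⟩ := h A _ hA hB
  choose ι hι using fun α : W => mem_fam.mp (hmaps (a α).2)
  have hcont : ∀ n, Continuous fun y : A => φ y.1 n := fun n =>
    (continuous_apply n).comp hφ.domRestrict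
  have hcl : ∀ t : ℕ × ℕ, ∃ F : Set (ℕ → K), IsClosed F ∧ Subtype.val ⁻¹' F =
      (⋂ n ∈ Ici t.1, {y : A | φ y.1 n = φ y.1 (Nat.pair n.unpair.1 t.1)}) ∩
      ⋂ s : ℕ, ⋂ l : ℕ, {y : A | φ y.1 (Nat.pair (Nat.pair (t.2 + 1) (Nat.pair s l)) t.1) =
        e (decide (enc (y.1 s) = l))} := by
    intro t
    refine isClosed_induced_iff.mp ?_
    refine (isClosed_biInter fun n _ => isClosed_eq (hcont _) (hcont _)).inter
      (isClosed_iInter fun s => isClosed_iInter fun l => isClosed_eq (hcont _) ?_)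
    exact (continuous_of_discreteTopology (f := fun k : K => e (decide (enc k = l)))).comp
      ((continuous_apply s).comp continuous_subtype_val)
  choose F hF hFA using hcl
  refine ⟨F, ι, hF, fun t y hy => ?_, fun i => ?_, fun α hα hX => ?_⟩
  · have hyA := hy.1
    obtain ⟨h1, h2⟩ := (hFA t).subset (show (⟨y, hyA⟩ : A) ∈ Subtype.val ⁻¹' F t from hy.2)
    obtain ⟨i, hi⟩ := mem_fam.mp (hmaps hyA)
    obtain ⟨N, hN⟩ := eventually_atTop.mp hi
    have h3 : y = L i t.2 := by
      funext s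
      have h4 := mem_iInter.mp (mem_iInter.mp h2 s) (enc (y s))
      have h5 := mem_iInter₂.mp h1
        (Nat.pair (Nat.pair (t.2 + 1) (Nat.pair s (enc (y s)))) (N + t.1))
        (le_trans (Nat.le_add_left _ _) (Nat.right_le_pair _ _))
      have h6 := hN (Nat.pair (Nat.pair (t.2 + 1) (Nat.pair s (enc (y s)))) (N + t.1))
        (le_trans (Nat.le_add_right _ _) (Nat.right_le_pair _ _))
      simp only [mem_ofPred_eq, Nat.unpair_pair] at h4 h5
      simp only [spread, Nat.unpair_pair, hc1] at h6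
      have h7 := he ((h6.symm.trans h5).trans h4)
      simp only [decide_true, decide_eq_true_eq] at h7
      exact (henc h7).symm
    rw [h3]
    exact hL i t.2
  · refine MapsTo.countable_of_injOn (f := fun α => φ (a α).1) (fun α hα => ?_) ?_
      (countable_cls (spread e (c i)))
    · have h1 : ι α = i := hα
      have h2 := hι α
      rw [h1] at h2
      exact h2
    · intro α _ β _ hab
      exact a.injective (Subtype.ext (hinj (a α).2 (a β).2 hab))
  · obtain ⟨j, hj⟩ : α ∈ range (ee (ψ (ι α))) := by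
      rw [← hee]
      exact hα
    obtain ⟨N, hN⟩ := eventually_atTop.mp (hι α)
    have h3 : L (ι α) j = (a α).1 := by simp only [L, hj, if_pos hX]
    refine ⟨(N, j), ?_⟩
    show a α ∈ Subtype.val ⁻¹' F (N, j)
    rw [hFA]
    refine ⟨mem_iInter₂.mpr fun n hn => ?_, mem_iInter.mpr fun s => mem_iInter.mpr fun l => ?_⟩
    · show φ _ n = φ _ (Nat.pair n.unpair.1 N)
      rw [hN n hn, hN _ (Nat.right_le_pair _ _)]
      simp only [spread, Nat.unpair_pair]
    · show φ _ (Nat.pair (Nat.pair (j + 1) (Nat.pair s l)) N) = _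
      rw [hN _ (Nat.right_le_pair _ _)]
      simp only [spread, Nat.unpair_pair, hc1, h3]

theorem cqset [Countable K] [Nontrivial K] [TopologicalSpace K] [DiscreteTopology K]
    (h : BACont K) (A : Set (ℕ → K)) (hA : Aleph1Dense A) (X : Set (ℕ → K)) (hX : X ⊆ A) :
    ∃ F : ℕ → Set (ℕ → K), (∀ n, IsClosed (F n)) ∧ X = A ∩ ⋃ n, F n := by
  rcases X.eq_empty_or_nonempty with rfl | ⟨x0, hx0⟩
  · exact ⟨fun _ => ∅, fun _ => isClosed_empty, by simp⟩
  obtain ⟨a⟩ : Nonempty (W ≃ A) := by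
    have := hA univ isOpen_univ univ_nonempty
    rw [inter_univ, ← mk_W] at this
    exact Cardinal.eq.mp this.symm
  choose F ι hF1 hF2 hι hcov using cqstep h hA a hx0
  have hnext : ∀ ψ i, ∃ γ, ∀ α, ι ψ α ≤ i → α < γ := by
    intro ψ i
    obtain ⟨γ, hγ⟩ := exists_above _ ((countable_Iic i).biUnion fun i' _ => hι ψ i')
    exact ⟨γ, fun α hα => hγ α (mem_biUnion (x := ι ψ α) hα rfl)⟩
  choose nx hnx using hnext
  obtain ⟨u, hu⟩ := exists_surjective_nat (ℕ × ℕ × ℕ)
  refine ⟨fun n => F (nx^[(u n).1] id) (u n).2, fun n => hF1 _ _, Subset.antisymm ?_ ?_⟩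
  · intro x hx
    obtain ⟨α, hα⟩ : ∃ α, (a α).1 = x := ⟨a.symm ⟨x, hX hx⟩, by simp⟩
    have hex : ∃ n, α ≤ (nx^[n] id) (ι (nx^[n] id) α) := by
      by_contra hcon
      obtain ⟨_, ⟨n, rfl⟩, hmin⟩ := (wellFounded_lt (α := W)).has_min
        (range fun n => ι (nx^[n] id) α) (range_nonempty _)
      have h1 : ι (nx^[n] id) α ≤ ι (nx^[n + 1] id) α := not_lt.mp (hmin _ ⟨n + 1, rfl⟩)
      have h2 := hnx _ _ α h1
      refine hcon ⟨n + 1, ?_⟩
      have h3 : nx^[n + 1] id = nx (nx^[n] id) := iterate_succ_apply' _ _ _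
      exact h2.le.trans (congrFun h3 _).symm.le
    obtain ⟨n, hn⟩ := hex
    obtain ⟨t, ht⟩ := hcov _ α hn (hα ▸ hx)
    obtain ⟨m, hm⟩ := hu (n, t)
    refine ⟨hX hx, mem_iUnion.mpr ⟨m, ?_⟩⟩
    rw [hm, ← hα]
    exact ht
  · rintro x ⟨hxA, hx⟩
    obtain ⟨n, hn⟩ := mem_iUnion.mp hx
    exact hF2 _ _ ⟨hxA, hn⟩

theorem cqset_all [Countable K] [Nontrivial K] [TopologicalSpace K] [DiscreteTopology K]
    (h : BACont K) (A : Set (ℕ → K)) (hA : #A ≤ ℵ₁) (X : Set (ℕ → K)) (hX : X ⊆ A) :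
    ∃ F : ℕ → Set (ℕ → K), (∀ n, IsClosed (F n)) ∧ X = A ∩ ⋃ n, F n := by
  obtain ⟨k0, k1, hk⟩ := exists_pair_ne K
  let e : Bool → K := fun b => cond b k0 k1
  have he : Injective e := by
    intro b b' hb
    cases b <;> cases b' <;> simp_all [e, hk.symm]
  obtain ⟨j, hj⟩ := exists_code
  obtain ⟨D, hD⟩ : ∃ D : Set (ℕ → K), Aleph1Dense D := ⟨_, aleph1Dense_code he hj ∅⟩
  have hAD : Aleph1Dense (A ∪ D) := by
    intro U hU hne
    apply le_antisymm
    · rw [union_inter_distrib_right]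
      refine (mk_union_le _ _).trans ?_
      exact (add_le_add ((mk_le_mk_of_subset inter_subset_left).trans hA) (hD U hU hne).le).trans
        (add_eq_self (aleph0_le_aleph 1)).le
    · rw [← hD U hU hne]
      exact mk_le_mk_of_subset (inter_subset_inter_left _ subset_union_right)
  obtain ⟨F, hF, hXF⟩ := cqset h _ hAD X (hX.trans subset_union_left)
  refine ⟨F, hF, Subset.antisymm (fun x hx => ⟨hX hx, (hXF.subset hx).2⟩) fun x hx => ?_⟩
  exact hXF.symm.subset ⟨Or.inl hx.1, hx.2⟩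

end

end Pool.Agent.Lib.MP_84ba36_lc
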