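import Pool.Agent.Lib.MP_84ba36_lc.Basic

/-!
The counting argument needs only Lipschitz maps of `A` into `B` with uncountable image.
-/

set_option autoImplicit false

namespace Pool.Agent.Lib.MP_84ba36_lc

open Set Cardinal Filter Function

theorem two_pow_eq_unc {K : Type} [Countable K] [Nontrivial K] [TopologicalSpace K]
    (h : ∀ A B : Set (ℕ → K), Aleph1Dense A → Aleph1Dense B →
      ∃ f : (ℕ → K) → (ℕ → K), IsLip f ∧ ¬ (f '' A).Countable ∧ MapsTo f A B) :
    (2 : Cardinal.{0}) ^ ℵ₀ = 2 ^ ℵ₁ := by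
  apply le_antisymm (power_le_power_left two_ne_zero (aleph0_le_aleph 1))
  obtain ⟨k0, k1, hk⟩ := exists_pair_ne K
  let e : Bool → K := fun b => cond b k0 k1
  have he : Injective e := by
    intro b b' hb
    cases b <;> cases b' <;> simp_all [e, hk.symm]
  obtain ⟨j, hj⟩ := exists_code
  let B : Set W → Set (ℕ → K) := fun X => fam fun i => spread e (j i X)
  have hB : ∀ X, Aleph1Dense (B X) := aleph1Dense_code he hj
  choose f hf hinj hmaps using fun X => h (B ∅) (B X) (hB ∅) (hB X)
  let Φ : Set W → {f : (ℕ → K) → (ℕ → K) // IsLip f} := fun X => ⟨f X, hf X⟩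
  have hΦ : Injective Φ := by
    intro X Y hXY
    have hfXY : f X = f Y := congrArg Subtype.val hXY
    by_contra hne
    obtain ⟨t, ht⟩ : ∃ t, ¬ (t ∈ X ↔ t ∈ Y) := by
      by_contra hall
      push Not at hall
      exact hne (Set.ext hall)
    apply hinj X
    have hc : (⋃ i ∈ Iic t, cls (spread e (j i X))).Countable :=
      (countable_Iic t).biUnion fun i _ => countable_cls _
    refine hc.mono ?_
    rintro _ ⟨a, ha, rfl⟩
    obtain ⟨i, hi⟩ := mem_fam.mp (hmaps X ha)
    have h2 := hmaps Y ha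
    rw [← hfXY] at h2
    obtain ⟨i', hi'⟩ := mem_fam.mp h2
    have h3 := (hj _ _ _ _ (spread_inj he hi hi')).2
    refine mem_biUnion (x := i) ?_ hi
    by_contra hlt
    have hlt' : t ∈ Iio i := mem_Iio.mpr (not_le.mp fun hle => hlt (mem_Iic.mpr hle))
    apply ht
    constructor
    · intro htX
      have : t ∈ X ∩ Iio i := ⟨htX, hlt'⟩
      rw [h3] at this
      exact this.1
    · intro htY
      have : t ∈ Y ∩ Iio i := ⟨htY, hlt'⟩
      rw [← h3] at this
      exact this.1
  have h4 := (mk_le_of_injective hΦ).trans mk_lip_le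
  rwa [mk_set, mk_W, ← two_power_aleph0] at h4

end Pool.Agent.Lib.MP_84ba36_lc
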